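import Pool.Agent.R955.FD.Defs

/-! Project FD (helper955), piece ABS (helper656): an interval is absorbed by one member of a
partition. -/

set_option autoImplicit false

namespace Pool.Agent.R656.FD

open Pool.Agent.R955.FD
open MeasureTheory Set Filter Topology
open scoped ENNReal

lemma ordC_union {S T : Set ℝ} {e : ℝ} (hS : S.OrdConnected) (hT : T.OrdConnected) (h1 : e ∈ S)
    (h2 : e ∈ T) : (S ∪ T).OrdConnected := by
  rw [← isPreconnected_iff_ordConnected] at *
  exact IsPreconnected.union e h1 h2 hS hT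

/-- removing an interval -/
lemma ordC_diff {S B : Set ℝ} {e : ℝ} (hS : S.OrdConnected) (hB : B.OrdConnected) (h1 : e ∉ S)
    (h2 : e ∈ B) : (S \ B).OrdConnected := by
  refine ⟨fun x hx y hy z hz => ⟨hS.out hx.1 hy.1 hz, fun hzB => ?_⟩⟩
  rcases lt_or_ge e x with h | h
  · exact hx.2 (hB.out h2 hzB ⟨h.le, hz.1⟩)
  · rcases lt_or_ge y e with h' | h'
    · exact hy.2 (hB.out hzB h2 ⟨hz.2, h'.le⟩)
    · exact h1 (hS.out hx.1 hy.1 ⟨h, h'⟩)

/-- the part on the left of `e` -/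
lemma ordC_left {S B : Set ℝ} {e : ℝ} (hS : S.OrdConnected) (hB : B.OrdConnected) (h1 : e ∈ S) :
    ((B \ S) ∩ Iio e).OrdConnected := by
  refine ⟨fun x hx y hy z hz => ⟨⟨hB.out hx.1.1 hy.1.1 hz, fun hzS => ?_⟩, ?_⟩⟩
  · exact hy.1.2 (hS.out hzS h1 ⟨hz.2, (mem_Iio.1 hy.2).le⟩)
  · exact lt_of_le_of_lt hz.2 hy.2

lemma ordC_right {S B : Set ℝ} {e : ℝ} (hS : S.OrdConnected) (hB : B.OrdConnected) (h1 : e ∈ S) :
    ((B \ S) ∩ Ioi e).OrdConnected := by
  refine ⟨fun x hx y hy z hz => ⟨⟨hB.out hx.1.1 hy.1.1 hz, fun hzS => ?_⟩, ?_⟩⟩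
  · exact hx.1.2 (hS.out h1 hzS ⟨(mem_Ioi.1 hx.2).le, hz.1⟩)
  · exact lt_of_lt_of_le hx.2 hz.1

/-- the union with an interval containing `e` -/
lemma nu_union (ν : Set ℝ → ℝ≥0∞) (hν : Tri ν) {S B : Set ℝ} {e : ℝ} {δ : ℝ≥0∞}
    (hS : S.OrdConnected) (hB : B.OrdConnected) (h1 : e ∈ S) (h2 : e ∈ B)
    (hδ : ∀ K : Set ℝ, K.OrdConnected → K ⊆ B → ν K ≤ δ) : ν (S ∪ B) ≤ ν S + 2 * δ := by
  have hL := ordC_left hS hB h1
  have hR := ordC_right hS hB h1
  have hSL : (S ∪ ((B \ S) ∩ Iio e)).OrdConnected := by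
    have h3 : S ∪ ((B \ S) ∩ Iio e) = S ∪ (B ∩ Iic e) := by
      ext x
      simp only [mem_union, mem_inter_iff, mem_diff, mem_Iio, mem_Iic]
      constructor
      · rintro (h | ⟨⟨h, -⟩, h'⟩)
        · exact Or.inl h
        · exact Or.inr ⟨h, h'.le⟩
      · rintro (h | ⟨h, h'⟩)
        · exact Or.inl h
        · by_cases hx : x ∈ S
          · exact Or.inl hx
          · refine Or.inr ⟨⟨h, hx⟩, lt_of_le_of_ne h' fun hxe => hx (hxe ▸ h1)⟩
    rw [h3]
    exact ordC_union hS (hB.inter ordConnected_Iic) h1 ⟨h2, le_refl e⟩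
  have hAll : (S ∪ ((B \ S) ∩ Iio e)) ∪ ((B \ S) ∩ Ioi e) = S ∪ B := by
    ext x
    simp only [mem_union, mem_inter_iff, mem_diff, mem_Iio, mem_Ioi]
    constructor
    · rintro ((h | h) | h)
      · exact Or.inl h
      · exact Or.inr h.1.1
      · exact Or.inr h.1.1
    · rintro (h | h)
      · exact Or.inl (Or.inl h)
      · by_cases hx : x ∈ S
        · exact Or.inl (Or.inl hx)
        · rcases lt_trichotomy x e with h' | h' | h'
          · exact Or.inl (Or.inr ⟨⟨h, hx⟩, h'⟩)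
          · exact absurd (h' ▸ h1) hx
          · exact Or.inr ⟨⟨h, hx⟩, h'⟩
  have hd1 : Disjoint S ((B \ S) ∩ Iio e) :=
    Set.disjoint_left.2 fun x hx hx' => hx'.1.2 hx
  have hd2 : Disjoint (S ∪ ((B \ S) ∩ Iio e)) ((B \ S) ∩ Ioi e) := by
    refine Set.disjoint_left.2 fun x hx hx' => ?_
    rcases hx with hx | hx
    · exact hx'.1.2 hx
    · exact absurd (mem_Ioi.1 hx'.2) (not_lt.2 (mem_Iio.1 hx.2).le)
  have e1 := (hν.2 _ _ hSL hR (by rw [hAll]; exact ordC_union hS hB h1 h2) hd2).1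
  have e2 := (hν.2 _ _ hS hL hSL hd1).1
  rw [hAll] at e1
  have e3 := hδ _ hL fun x hx => hx.1.1
  have e4 := hδ _ hR fun x hx => hx.1.1
  calc ν (S ∪ B) ≤ ν (S ∪ ((B \ S) ∩ Iio e)) + ν ((B \ S) ∩ Ioi e) := e1
    _ ≤ (ν S + δ) + δ := by gcongr; exact e2.trans (by gcongr)
    _ = ν S + 2 * δ := by rw [add_assoc, two_mul]

/-- removing an interval containing `e ∉ S` -/
lemma nu_diff (ν : Set ℝ → ℝ≥0∞) (hν : Tri ν) {S B : Set ℝ} {e : ℝ} {δ : ℝ≥0∞}
    (hS : S.OrdConnected) (hB : B.OrdConnected) (h1 : e ∉ S) (h2 : e ∈ B)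
    (hδ : ∀ K : Set ℝ, K.OrdConnected → K ⊆ B → ν K ≤ δ) : ν (S \ B) ≤ ν S + δ := by
  have h3 : (S \ B) ∪ (S ∩ B) = S := Set.diff_union_inter S B
  have h4 := (hν.2 (S \ B) (S ∩ B) (ordC_diff hS hB h1 h2) (hS.inter hB) (by rwa [h3])
    (Set.disjoint_left.2 fun x hx hx' => hx.2 hx'.2)).2
  rw [h3] at h4
  exact h4.trans (by gcongr; exact hδ _ (hS.inter hB) inter_subset_right)

/-- on the right of `e` there is at most one interval which meets `B` and its complement -/
lemma sub_right (J : ℕ → Set ℝ) (B : Set ℝ) (e : ℝ) (hJ : IsIntPart J) (hB : B.OrdConnected)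
    (he : e ∈ B) : {i | (∃ x ∈ J i, x ∈ B ∧ e < x) ∧ ∃ y ∈ J i, y ∉ B ∧ e < y}.Subsingleton := by
  rintro i ⟨⟨x, hx, hxB, hex⟩, y, hy, hyB, hey⟩ j ⟨⟨x', hx', hxB', hex'⟩, y', hy', hyB', hey'⟩
  have hm : max x x' ∈ B := by
    rcases max_choice x x' with h | h <;> rw [h] <;> assumption
  have h1 : max x x' < y := by
    by_contra h
    exact hyB (hB.out he hm ⟨hey.le, not_lt.1 h⟩)
  have h2 : max x x' < y' := by
    by_contra h
    exact hyB' (hB.out he hm ⟨hey'.le, not_lt.1 h⟩)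
  have m1 : max x x' ∈ J i := (hJ.1 i).out hx hy ⟨le_max_left _ _, h1.le⟩
  have m2 : max x x' ∈ J j := (hJ.1 j).out hx' hy' ⟨le_max_right _ _, h2.le⟩
  by_contra hne
  exact Set.disjoint_left.1 (hJ.2.1 i j hne) m1 m2

lemma sub_left (J : ℕ → Set ℝ) (B : Set ℝ) (e : ℝ) (hJ : IsIntPart J) (hB : B.OrdConnected)
    (he : e ∈ B) : {i | (∃ x ∈ J i, x ∈ B ∧ x < e) ∧ ∃ y ∈ J i, y ∉ B ∧ y < e}.Subsingleton := by
  rintro i ⟨⟨x, hx, hxB, hex⟩, y, hy, hyB, hey⟩ j ⟨⟨x', hx', hxB', hex'⟩, y', hy', hyB', hey'⟩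
  have hm : min x x' ∈ B := by
    rcases min_choice x x' with h | h <;> rw [h] <;> assumption
  have h1 : y < min x x' := by
    by_contra h
    exact hyB (hB.out hm he ⟨not_lt.1 h, hey.le⟩)
  have h2 : y' < min x x' := by
    by_contra h
    exact hyB' (hB.out hm he ⟨not_lt.1 h, hey'.le⟩)
  have m1 : min x x' ∈ J i := (hJ.1 i).out hy hx ⟨h1.le, min_le_left _ _⟩
  have m2 : min x x' ∈ J j := (hJ.1 j).out hy' hx' ⟨h2.le, min_le_right _ _⟩
  by_contra hne
  exact Set.disjoint_left.1 (hJ.2.1 i j hne) m1 m2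

lemma fin_of_sub {T : Set ℕ} (h : T.Subsingleton) : ∃ S : Finset ℕ, S.card ≤ 1 ∧ ∀ i ∈ T, i ∈ S := by
  rcases h.eq_empty_or_singleton with h | ⟨a, h⟩
  · exact ⟨∅, by simp, by simp [h]⟩
  · exact ⟨{a}, by simp, by simp [h]⟩

theorem t_ABS (h : S_LQ) : S_ABS := by
  classical
  intro ν q J B e δ hν hq hJ hB he hδ
  obtain ⟨i₀, hi₀⟩ := hJ.2.2 e
  have hne : ∀ i, i ≠ i₀ → e ∉ J i := fun i hi hei =>
    Set.disjoint_left.1 (hJ.2.1 i i₀ hi) hei hi₀
  set J' : ℕ → Set ℝ := fun i => if i = i₀ then J i₀ ∪ B else J i \ B with hJ'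
  have hJ'0 : J' i₀ = J i₀ ∪ B := by simp [hJ']
  have hJ'1 : ∀ i, i ≠ i₀ → J' i = J i \ B := fun i hi => by simp [hJ', hi]
  refine ⟨J', i₀, ⟨?_, ?_, ?_⟩, hJ'0, hJ'1, ?_⟩
  · intro i
    by_cases hi : i = i₀
    · rw [hi, hJ'0]
      exact ordC_union (hJ.1 i₀) hB hi₀ he
    · rw [hJ'1 i hi]
      exact ordC_diff (hJ.1 i) hB (hne i hi) he
  · intro i j hij
    by_cases hi : i = i₀
    · have hj : j ≠ i₀ := fun hj => hij (hi.trans hj.symm)
      rw [hi, hJ'0, hJ'1 j hj]
      refine Set.disjoint_left.2 fun x hx hx' => ?_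
      rcases hx with hx | hx
      · exact Set.disjoint_left.1 (hJ.2.1 i₀ j hj.symm) hx hx'.1
      · exact hx'.2 hx
    · by_cases hj : j = i₀
      · rw [hj, hJ'0, hJ'1 i hi]
        refine Set.disjoint_left.2 fun x hx' hx => ?_
        rcases hx with hx | hx
        · exact Set.disjoint_left.1 (hJ.2.1 i i₀ hi) hx'.1 hx
        · exact hx'.2 hx
      · rw [hJ'1 i hi, hJ'1 j hj]
        exact (hJ.2.1 i j hij).mono diff_subset diff_subset
  · intro x
    by_cases hx : x ∈ B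
    · exact ⟨i₀, by rw [hJ'0]; exact Or.inr hx⟩
    · obtain ⟨i, hi⟩ := hJ.2.2 x
      by_cases hii : i = i₀
      · exact ⟨i₀, by rw [hJ'0]; exact Or.inl (hii ▸ hi)⟩
      · exact ⟨i, by rw [hJ'1 i hii]; exact ⟨hi, hx⟩⟩
  · obtain ⟨l1, l2, -, l4, -⟩ := h q hq
    obtain ⟨SR, hSR, hSR'⟩ := fin_of_sub (sub_right J B e hJ hB he)
    obtain ⟨SL, hSL, hSL'⟩ := fin_of_sub (sub_left J B e hJ hB he)
    set b : ℕ → ℝ≥0∞ := fun i => if i = i₀ then 2 * δ else 0 with hb
    set b' : ℕ → ℝ≥0∞ := fun i => if i ∈ SR ∪ SL then δ else 0 with hb'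
    have hle : ∀ i, ν (J' i) ≤ ν (J i) + (b i + b' i) := by
      intro i
      by_cases hi : i = i₀
      · have h5 : b i = 2 * δ := by simp [hb, hi]
        rw [h5, hi, hJ'0]
        refine (nu_union ν hν (hJ.1 i₀) hB hi₀ he hδ).trans ?_
        gcongr
        exact le_self_add
      · rw [hJ'1 i hi]
        by_cases h6 : ∃ x ∈ J i, x ∈ B
        · by_cases h7 : ∃ y ∈ J i, y ∉ B
          · obtain ⟨x, hx, hxB⟩ := h6
            obtain ⟨y, hy, hyB⟩ := h7
            have hmem : i ∈ SR ∪ SL := by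
              have hxe : x ≠ e := fun hxe => hne i hi (hxe ▸ hx)
              have hye : y ≠ e := fun hye => hne i hi (hye ▸ hy)
              rcases lt_or_gt_of_ne hxe with h8 | h8
              · rcases lt_or_gt_of_ne hye with h9 | h9
                · exact Finset.mem_union_right _ (hSL' i ⟨⟨x, hx, hxB, h8⟩, y, hy, hyB, h9⟩)
                · exact absurd ((hJ.1 i).out hx hy ⟨h8.le, h9.le⟩) (hne i hi)
              · rcases lt_or_gt_of_ne hye with h9 | h9
                · exact absurd ((hJ.1 i).out hy hx ⟨h9.le, h8.le⟩) (hne i hi)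
                · exact Finset.mem_union_left _ (hSR' i ⟨⟨x, hx, hxB, h8⟩, y, hy, hyB, h9⟩)
            have h10 : b' i = δ := by simp only [hb', if_pos hmem]
            rw [h10]
            refine (nu_diff ν hν (hJ.1 i) hB (hne i hi) he hδ).trans ?_
            gcongr
            exact le_add_self
          · push Not at h7
            have : J i \ B = ∅ := by
              ext z
              simp only [mem_diff, mem_empty_iff_false, iff_false, not_and, not_not]
              exact h7 z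
            rw [this, hν.1]
            exact zero_le
        · push Not at h6
          have : J i \ B = J i := by
            ext z
            simp only [mem_diff, and_iff_left_iff_imp]
            exact h6 z
          rw [this]
          exact le_self_add
    have hlb : lq q b ≤ 2 * δ := by
      have := l4 {i₀} b (2 * δ) (fun i hi => by
        have : i ≠ i₀ := by simpa using hi
        simp [hb, this]) (fun i => by
        simp only [hb]
        split_ifs
        · exact le_rfl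
        · exact zero_le)
      simpa using this
    have hlb' : lq q b' ≤ 2 * δ := by
      have h11 := l4 (SR ∪ SL) b' δ (fun i hi => by simp only [hb', if_neg hi]) (fun i => by
        simp only [hb']
        split_ifs
        · exact le_rfl
        · exact zero_le)
      refine h11.trans ?_
      gcongr
      have h12 := Finset.card_union_le SR SL
      have h13 : (SR ∪ SL).card ≤ 2 := by omega
      exact_mod_cast h13
    calc lq q (fun i => ν (J' i)) ≤ lq q (fun i => ν (J i) + (b i + b' i)) := l1 _ _ hle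
      _ ≤ lq q (fun i => ν (J i)) + lq q (fun i => b i + b' i) := l2 _ _
      _ ≤ lq q (fun i => ν (J i)) + (lq q b + lq q b') := by gcongr; exact l2 _ _
      _ ≤ lq q (fun i => ν (J i)) + (2 * δ + 2 * δ) := by gcongr
      _ = lq q (fun i => ν (J i)) + 4 * δ := by
        rw [← add_mul]
        norm_num

end Pool.Agent.R656.FD
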